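import Pool.Agent.ISB.StmtsA

/-!
# Squad ISB, block A, row NLX: fixed points (helper9)
-/

set_option autoImplicit false

namespace Pool.Agent.ISB.H9

open Pool.Agent.ISB

variable {L : Type} [LieRing L]

theorem ln_append {F : Type} [Field F] [LieAlgebra F L] (u : L) (l l' : List L) :
    ln u (l ++ l') = ln (ln u l) l' := by
  unfold ln
  rw [List.foldl_append]

theorem ln_zero (l : List L) : ln (0 : L) l = 0 := by
  induction l with
  | nil => rfl
  | cons a l ih =>
    show ln ⁅(0 : L), a⁆ l = 0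
    rw [zero_lie, ih]

theorem nlx (hIDL : IdlStmt) (hMLT : MltStmt) (hSPN : SpnStmt) (hCOM : ComStmt) (hPGH : PghStmt)
    (hEON : EonStmt) : NlxStmt := by
  intro F L _ _ _ r n σ ζ R H hAut hCov t u hu hu0 cs hlen hcs
  obtain ⟨hStb, -, hE3⟩ := hEON F L r n σ ζ R H hAut hCov
  have hs := hSPN F L R hCov.brk t
  have hcs' : ∀ c ∈ cs, c ∈ Submodule.span F {x | x ∈ R ∧ x ∈ dr (Submodule.span F R) t} := by
    intro c hc
    have h1 := hcs c hc
    rw [hs] at h1
    exact h1
  have huA : u ∈ Submodule.span F R :=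
    (hIDL F L (Submodule.span F R) hStb.cl).1 0 (t + 1) (Nat.zero_le _) hu
  have h1 := (hMLT F L).2.1 _ u cs hcs'
  refine (Submodule.span_le.2 ?_) h1
  rintro z ⟨ys, hyl, hys, rfl⟩
  have hysR : ∀ y ∈ ys, y ∈ R := fun y hy => (hys y hy).1
  have hysD : ∀ y ∈ ys, y ∈ dr (Submodule.span F R) t := fun y hy => (hys y hy).2
  classical
  obtain ⟨f, hf⟩ : ∃ f : L → ℕ, ∀ y ∈ R, f y < r ∧ y ∈ H (f y) := by
    refine ⟨fun y => if h : y ∈ R then (hCov.cov y h).choose else 0, fun y hy => ?_⟩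
    have h2 := (hCov.cov y hy).choose_spec
    simp only [dif_pos hy]
    exact h2
  obtain ⟨k, hk, l1, l2, hp, hl1, hfk⟩ := hPGH L r n f ys (fun a ha => (hf a (hysR a ha)).1)
    (by rw [hyl]; exact hlen)
  have h2 := (hCOM F L (Submodule.span F R) hStb.cl t ys hysD).2.1 u hu (l1 ++ l2) hp
  have hmem : ∀ a ∈ l1, a ∈ H k := by
    intro a ha
    have haR : a ∈ R := hysR a (hp.mem_iff.2 (List.mem_append_left _ ha))
    rw [← hfk a ha]
    exact (hf a haR).2
  have h3 : ln u (l1 ++ l2) = 0 := by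
    rw [ln_append (F := F), ← List.take_append_drop n l1, ln_append (F := F),
      hE3 k u ⟨huA, hu0⟩ (l1.take n) (by rw [List.length_take, hl1]; omega)
        (fun y hy => hmem y (List.mem_of_mem_take hy)), ln_zero, ln_zero]
  rw [h3, sub_zero] at h2
  exact h2

end Pool.Agent.ISB.H9
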